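import Pool.Agent.H71.AL.Heads
import Pool.Agent.H60.ALV.GPY
import Pool.Agent.H42.ALV.GPR
import Pool.Agent.H42.ALV.INV
import Pool.Agent.H96.ALV.ESW
import Pool.Agent.H33.ALV.FRE
import Pool.Agent.H55.ALV.CMP
import Pool.Agent.H34.ALV.DNS
import Pool.Agent.H30.ALV.CTE
import Pool.Agent.H61.ALV.FIN
import Pool.Agent.H50.ALV.EXI
import Pool.Agent.H52.ALV.STP
import Pool.Agent.H52.ALV.UNI
import Pool.Agent.H49.ALV.TRF
import Pool.Agent.H74.ALV.TRC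
import Pool.Agent.H64.ALV.EXT
import Pool.Agent.H23.ALV.REA
import Pool.Agent.H70.ALV.HOM
import Pool.Agent.H23.ALV.CRC
import Pool.Agent.H36.ALV.COD
import Pool.Agent.H30.ALV.CNJ
import Pool.Agent.H11.ALV.MES
import Pool.Agent.H54.ALV.MCD
import Pool.Agent.H40.ALV.CIV
import Pool.Agent.H17.ALV.FUN
import Pool.Agent.H99.ALV.TRN
import Pool.Agent.H99.ALV.LIN
import Pool.Agent.H86.ALV.RAT
import Pool.Agent.H23.ALV.NRM
import Pool.Agent.H56.ALV.TRS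
import Pool.Agent.H50.ALV.CZA
import Pool.Agent.H70.ALV.CZB
import Pool.Agent.H30.ALV.CZM
import Pool.Agent.H23.ALV.SIV
import Pool.Agent.H39.ALV.CIR

set_option autoImplicit false

namespace Pool.Agent.AL

theorem final : T_LIN ∧ T_RAT ∧ T_CIR :=
  asm Pool.Agent.H60.ALV.pf_GPY
    Pool.Agent.H42.ALV.pf_GPR
    Pool.Agent.H42.ALV.pf_INV
    Pool.Agent.H96.ALV.pf_ESW
    Pool.Agent.H33.ALV.pf_FRE
    Pool.Agent.H55.ALV.pf_CMP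
    Pool.Agent.H34.ALV.pf_DNS
    Pool.Agent.H30.ALV.pf_CTE
    Pool.Agent.H61.ALV.pf_FIN
    Pool.Agent.H50.ALV.pf_EXI
    Pool.Agent.H52.ALV.pf_STP
    Pool.Agent.H52.ALV.pf_UNI
    Pool.Agent.H49.ALV.pf_TRF
    Pool.Agent.H74.ALV.pf_TRC
    Pool.Agent.H64.ALV.pf_EXT
    Pool.Agent.H23.ALV.pf_REA
    Pool.Agent.H70.ALV.pf_HOM
    Pool.Agent.H23.ALV.pf_CRC
    Pool.Agent.H36.ALV.pf_COD
    Pool.Agent.H30.ALV.pf_CNJ
    Pool.Agent.H11.ALV.pf_MES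
    Pool.Agent.H54.ALV.pf_MCD
    Pool.Agent.H40.ALV.pf_CIV
    Pool.Agent.H17.ALV.pf_FUN
    Pool.Agent.H99.ALV.pf_TRN
    Pool.Agent.H99.ALV.pf_LIN
    Pool.Agent.H86.ALV.pf_RAT
    Pool.Agent.H23.ALV.pf_NRM
    Pool.Agent.H56.ALV.pf_TRS
    Pool.Agent.H50.ALV.pf_CZA
    Pool.Agent.H70.ALV.pf_CZB
    Pool.Agent.H30.ALV.pf_CZM
    Pool.Agent.H23.ALV.pf_SIV
    Pool.Agent.H39.ALV.CIR.pf_CIR

end Pool.Agent.AL
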