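import Mathlib

/-!
Definitions for the topological Vaught conjecture for conjugation actions on ordered lines.
-/

set_option autoImplicit false

open Set

namespace Pool.Agent.AL

section

variable {ι L : Type}

/-- increasing maps -/
def Inc (lt : L → L → Prop) (f : L → L) : Prop := ∀ x y, lt x y → lt (f x) (f y)

/-- decreasing maps -/
def Dec (lt : L → L → Prop) (f : L → L) : Prop := ∀ x y, lt x y → lt (f y) (f x)

/-- good intervals: every map of the family moves the interval off itself or is the identity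
on it -/
def Gd (lt : L → L → Prop) (g : ι → L → L) (p q : L) : Prop :=
  lt p q ∧ ∀ i, (∀ x, lt p x → lt x q → ¬ (lt p (g i x) ∧ lt (g i x) q)) ∨
    ∀ x, lt p x → lt x q → g i x = x

/-- points in good intervals -/
def Ws (lt : L → L → Prop) (g : ι → L → L) (x : L) : Prop :=
  ∃ p q, Gd lt g p q ∧ lt p x ∧ lt x q

/-- pairs of points in a good interval -/
def Sr (lt : L → L → Prop) (g : ι → L → L) (y z : L) : Prop :=
  ∃ p q, Gd lt g p q ∧ (lt p y ∧ lt y q) ∧ lt p z ∧ lt z q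

/-- the iterates of `f` at `y` converge to `x`, from one side -/
def Lm (lt : L → L → Prop) (f : L → L) (y x : L) : Prop :=
  (lt y x ∧ (∀ n : ℕ, lt (f^[n] y) x) ∧ ∀ z, lt z x → ∃ n : ℕ, lt z (f^[n] y)) ∨
  (lt x y ∧ (∀ n : ℕ, lt x (f^[n] y)) ∧ ∀ z, lt x z → ∃ n : ℕ, lt (f^[n] y) z)

/-- special points of the first kind: fixed points isolated from one side -/
def E1 (lt : L → L → Prop) (g : ι → L → L) (x : L) : Prop :=
  (∃ i y, Inc lt (g i) ∧ Lm lt (g i) y x) ∨ ∃ i, Dec lt (g i) ∧ g i x = x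

/-- special points of the second kind: ends of stars -/
def E2 (lt : L → L → Prop) (g : ι → L → L) (x : L) : Prop :=
  ¬ Ws lt g x ∧ ∃ y, (lt y x ∧ ∀ z, lt y z → lt z x → Sr lt g y z) ∨
    (lt x y ∧ ∀ z, lt x z → lt z y → Sr lt g y z)

/-- special points -/
def Es (lt : L → L → Prop) (g : ι → L → L) (x : L) : Prop := E1 lt g x ∨ E2 lt g x

/-- the family is a group of monotone bijections -/
structure Gp (lt : L → L → Prop) (g : ι → L → L) : Prop where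
  one : ∃ i, ∀ x, g i x = x
  mul : ∀ i j, ∃ k, ∀ x, g k x = g i (g j x)
  inv : ∀ i, ∃ j, (∀ x, g j (g i x) = x) ∧ ∀ x, g i (g j x) = x
  mono : ∀ i, Inc lt (g i) ∨ Dec lt (g i)

/-- canonical orders with a group of monotone bijections -/
structure Cn (lt : L → L → Prop) (g : ι → L → L) : Prop where
  k1 : ∀ i y m, Inc lt (g i) → lt y (g i y) → (∀ n : ℕ, lt ((g i)^[n] y) m) →
    ∃ x, Lm lt (g i) y x
  k1' : ∀ i y m, Inc lt (g i) → lt (g i y) y → (∀ n : ℕ, lt m ((g i)^[n] y)) →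
    ∃ x, Lm lt (g i) y x
  k1a : ∀ i, Dec lt (g i) → ∃ x, g i x = x
  k2 : ∀ y m, Ws lt g y → lt y m → ¬ Sr lt g y m →
    (∃ x, lt y x ∧ ¬ Ws lt g x ∧ ∀ z, lt y z → lt z x → Sr lt g y z) ∨
    ∃ t z, lt y t ∧ lt t z ∧ Sr lt g y t ∧ Sr lt g t z ∧ ¬ Sr lt g y z
  k2' : ∀ y m, Ws lt g y → lt m y → ¬ Sr lt g y m →
    (∃ x, lt x y ∧ ¬ Ws lt g x ∧ ∀ z, lt x z → lt z y → Sr lt g y z) ∨
    ∃ t z, lt t y ∧ lt z t ∧ Sr lt g y t ∧ Sr lt g t z ∧ ¬ Sr lt g y z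
  k3 : ∀ x, Es lt g x ∨ ∃ p q, lt p x ∧ lt x q ∧ ∀ z, lt p z → lt z q → ¬ Es lt g z
  k4 : ∀ x y, lt x y → (∃ p q, lt p x ∧ lt y q ∧ ∀ z, lt p z → lt z q → ¬ Es lt g z) →
    ¬ Ws lt g x → ∃ i, g i x = y

/-- words -/
def wd (f : ℕ → L → L) : List ℕ → L → L
  | [] => id
  | k :: w => fun x => f k (wd f w x)

end

/-- the order of the real line -/
abbrev rl : ℝ → ℝ → Prop := fun x y => x < y

section

variable {ι : Type}

/-- the closure of the set of special points -/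
def Fc (G : ι → ℝ → ℝ) : Set ℝ := closure {z | Es rl G z}

/-- two reals in the same component of the complement of `Fc` -/
def SC (G : ι → ℝ → ℝ) (x y : ℝ) : Prop := ∀ z ∈ uIcc x y, z ∉ Fc G

/-- canonical sets of reals -/
structure CR (G : ι → ℝ → ℝ) (D : Set ℝ) : Prop where
  es : ∀ x, Es rl G x → x ∈ D
  cl : ∀ x ∈ D, x ∈ Fc G → Es rl G x
  tr : ∀ x ∈ D, ∀ y ∈ D, x < y → SC G x y → ¬ Ws rl G x → ∃ i, G i x = y

/-- the set is dense in the line -/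
def Ds (D : Set ℝ) : Prop := ∀ p q : ℝ, p < q → ∃ d ∈ D, p < d ∧ d < q

/-- the family maps the set to itself -/
def Iv (G : ι → ℝ → ℝ) (D : Set ℝ) : Prop := ∀ i, ∀ d ∈ D, G i d ∈ D

/-- `e` is an embedding of the order `lt` with dense range -/
structure Em (lt : ℕ → ℕ → Prop) (e : ℕ → ℝ) : Prop where
  inj : Function.Injective e
  ord : ∀ m n, lt m n ↔ e m < e n
  den : Ds (range e)

/-- invariant partial maps between canonical sets, for the back-and-forth argument -/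
structure PM (G : ι → ℝ → ℝ) (D D' : Set ℝ) (Θ : Set (ℝ × ℝ)) : Prop where
  sub : ∀ p ∈ Θ, p.1 ∈ D ∧ p.2 ∈ D'
  inv : ∀ p ∈ Θ, ∀ i, (G i p.1, G i p.2) ∈ Θ
  ord : ∀ p ∈ Θ, ∀ q ∈ Θ, (p.1 < q.1 ↔ p.2 < q.2)
  sam : ∀ p ∈ Θ, (Es rl G p.1 ∧ p.2 = p.1) ∨ (p.1 ∉ Fc G ∧ SC G p.1 p.2)
  esp : ∀ x, Es rl G x → (x, x) ∈ Θ
  fin : ∃ T : List (ℝ × ℝ), ∀ p ∈ Θ, Es rl G p.1 ∨ ∃ t ∈ T, ∃ i, p = (G i t.1, G i t.2)

end

/-- orders of the natural numbers with sequences of maps -/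
abbrev Y : Type := (ℕ → ℕ → Bool) × (ℕ → ℕ → ℕ)

/-- the order of `y` -/
def lt (y : Y) (m n : ℕ) : Prop := y.1 m n = true

/-- `g` is an isomorphism -/
def IsoH (y z : Y) (g : Equiv.Perm ℕ) : Prop :=
  (∀ m n, z.1 (g m) (g n) = y.1 m n) ∧ ∀ k m, z.2 k (g m) = g (y.2 k m)

/-- isomorphic -/
def Iso (y z : Y) : Prop := ∃ g, IsoH y z g

/-- strict linear orders -/
def Ln (y : Y) : Prop :=
  (∀ a, ¬ lt y a a) ∧ (∀ a b, a ≠ b → lt y a b ∨ lt y b a) ∧ ∀ a b c, lt y a b → lt y b c → lt y a c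

/-- monotone maps, perhaps not strictly monotone -/
def Mt (y : Y) (f : ℕ → ℕ) : Prop :=
  (∀ a b, lt y a b → f a = f b ∨ lt y (f a) (f b)) ∨ ∀ a b, lt y a b → f a = f b ∨ lt y (f b) (f a)

/-- perfectly many isomorphism types -/
def PerfY (A : Set Y) : Prop :=
  ∃ F : (ℕ → Bool) → Y, Measurable F ∧ (∀ u, F u ∈ A) ∧ ∀ u v, u ≠ v → ¬ Iso (F u) (F v)

/-- countably many isomorphism types -/
def CtbY (A : Set Y) : Prop := ∃ D : Set Y, D.Countable ∧ ∀ y ∈ A, ∃ z ∈ D, Iso y z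

/-- dense orders without end points, with monotone bijections closed under inverses -/
structure DL (y : Y) : Prop where
  ln : Ln y
  den : ∀ a b, lt y a b → ∃ c, lt y a c ∧ lt y c b
  top : ∀ a, ∃ b, lt y a b
  bot : ∀ a, ∃ b, lt y b a
  inv : ∀ k m, y.2 (2 * k + 1) (y.2 (2 * k) m) = m ∧ y.2 (2 * k) (y.2 (2 * k + 1) m) = m
  mono : ∀ k, Inc (lt y) (y.2 (2 * k)) ∨ Dec (lt y) (y.2 (2 * k))

/-- the canonical ones -/
def Cy (y : Y) : Prop := DL y ∧ Cn (lt y) (wd y.2)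

/-- the sequence of homeomorphisms and their inverses -/
def dbl (h : ℕ → ℝ ≃ₜ ℝ) : ℕ → ℝ → ℝ :=
  fun k => if k % 2 = 0 then (fun x => h (k / 2) x) else (fun x => (h (k / 2)).symm x)

/-- the group generated by the homeomorphisms -/
def gr (h : ℕ → ℝ ≃ₜ ℝ) : List ℕ → ℝ → ℝ := wd (dbl h)

/-- `y` and `e` code the sequence `a` of maps, given on the rationals -/
def Cd (y : Y) (a : ℕ → ℚ → ℝ) (e : ℕ → ℝ) : Prop :=
  ∀ (k : ℕ) (q : ℚ) (n : ℕ), a k q < e n ↔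
    ∃ m, ((Inc (lt y) (y.2 (2 * k)) ∧ (q : ℝ) < e m) ∨ (¬ Inc (lt y) (y.2 (2 * k)) ∧ e m < q)) ∧
      (y.2 (2 * k) m = n ∨ lt y (y.2 (2 * k) m) n)

/-- conjugate by an increasing homeomorphism -/
def Cj (h h' : ℕ → ℝ ≃ₜ ℝ) : Prop :=
  ∃ g : ℝ ≃ₜ ℝ, StrictMono g ∧ ∀ k x, g (h k x) = h' k (g x)

/-- restriction to the rationals -/
def rs (h : ℕ → ℝ ≃ₜ ℝ) : ℕ → ℚ → ℝ := fun k q => h k q

end Pool.Agent.AL
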