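import Pool.Agent.H71.AL.Targets

set_option autoImplicit false

namespace Pool.Agent.AL

theorem asm
    (hGPY : T_GPY) (hGPR : T_GPR) (hINV : T_INV) (hESW : T_ESW) (hFRE : T_FRE)
    (hCMP : T_INV → T_ESW → T_FRE → T_CMP)
    (hDNS : T_INV → T_ESW → T_FRE → T_CMP → T_DNS)
    (hCTE : T_CTE) (hFIN : T_FIN)
    (hEXI : T_INV → T_ESW → T_CMP → T_DNS → T_CTE → T_EXI)
    (hSTP : T_INV → T_ESW → T_FRE → T_CMP → T_FIN → T_STP)
    (hUNI : T_INV → T_STP → T_UNI) (hTRF : T_TRF) (hTRC : T_TRF → T_ESW → T_TRC)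
    (hEXT : T_EXT) (hREA : T_REA) (hHOM : T_EXT → T_HOM) (hCRC : T_CRC)
    (hCOD : T_GPR → T_EXI → T_TRC → T_HOM → T_COD)
    (hCNJ : T_GPR → T_TRC → T_HOM → T_EXT → T_CRC → T_UNI → T_CNJ)
    (hMES : T_MES) (hMCD : T_MCD) (hCIV : T_CIV) (hFUN : T_FUN) (hTRN : T_FUN → T_TRN)
    (hLIN : T_TRN → T_MES → T_MCD → T_REA → T_HOM → T_COD → T_CNJ → T_CIV → T_LIN)
    (hRAT : T_TRN → T_RAT) (hNRM : T_NRM) (hTRS : T_TRS)
    (hCZA : T_COD → T_HOM → T_REA → T_NRM → T_TRS → T_CZA)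
    (hCZB : T_CNJ → T_HOM → T_NRM → T_CZB)
    (hCZM : T_MES → T_MCD → T_CZM) (hSIV : T_CIV → T_SIV)
    (hCIR : T_TRN → T_CZA → T_CZB → T_CZM → T_SIV → T_CIR) :
    T_LIN ∧ T_RAT ∧ T_CIR := by
  have cmp := hCMP hINV hESW hFRE
  have dns := hDNS hINV hESW hFRE cmp
  have exi := hEXI hINV hESW cmp dns hCTE
  have uni := hUNI hINV (hSTP hINV hESW hFRE cmp hFIN)
  have trc := hTRC hTRF hESW
  have hom := hHOM hEXT
  have cod := hCOD hGPR exi trc hom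
  have cnj := hCNJ hGPR trc hom hEXT hCRC uni
  have trn := hTRN hFUN
  exact ⟨hLIN trn hMES hMCD hREA hom cod cnj hCIV, hRAT trn,
    hCIR trn (hCZA cod hom hREA hNRM hTRS) (hCZB cnj hom hNRM) (hCZM hMES hMCD)
      (hSIV hCIV)⟩

end Pool.Agent.AL
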