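import Pool.Agent.H71.AL.Defs

/-!
Target statements: the topological Vaught conjecture for conjugation actions on ordered lines.
-/

set_option autoImplicit false

open Set

namespace Pool.Agent.AL

/-- GPY: the words form a group. -/
def T_GPY : Prop := ∀ y : Y, DL y → Gp (lt y) (wd y.2)

/-- GPR: the words in homeomorphisms form a group. -/
def T_GPR : Prop := ∀ h : ℕ → ℝ ≃ₜ ℝ, Gp rl (gr h)

/-- INV: invariance of all notions. -/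
def T_INV : Prop := ∀ (ι : Type) (G : ι → ℝ → ℝ), Gp rl G → ∀ j,
  (∀ x, Ws rl G x → Ws rl G (G j x)) ∧ (∀ y z, Sr rl G y z → Sr rl G (G j y) (G j z)) ∧
  (∀ x, Es rl G x → Es rl G (G j x)) ∧ (∀ x ∈ Fc G, G j x ∈ Fc G) ∧
  ∀ x y, SC G x y → SC G (G j x) (G j y)

/-- ESW: special points are not in good intervals. -/
def T_ESW : Prop := ∀ (ι : Type) (G : ι → ℝ → ℝ), Gp rl G →
  IsOpen {x | Ws rl G x} ∧ (∀ x, E1 rl G x → ¬ Ws rl G x) ∧ ∀ x ∈ Fc G, ¬ Ws rl G x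

/-- FRE: inside a component the group acts freely modulo the kernel, signs are constant. -/
def T_FRE : Prop := ∀ (ι : Type) (G : ι → ℝ → ℝ), Gp rl G → ∀ x y, SC G x y → ∀ i,
  (G i x = x → G i y = y) ∧ (x < G i x → y < G i y) ∧ (G i x < x → G i y < y) ∧
  (SC G x (G i x) → Inc rl (G i))

/-- CMP: a component which meets the set of points in good intervals is contained in it. -/
def T_CMP : Prop := ∀ (ι : Type) (G : ι → ℝ → ℝ), Gp rl G →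
  ∀ x y, Ws rl G x → SC G x y → Ws rl G y

/-- DNS: in the other components all orbits are dense. -/
def T_DNS : Prop := ∀ (ι : Type) (G : ι → ℝ → ℝ), Gp rl G →
  ∀ x p q, p < q → SC G x p → SC G x q → ¬ Ws rl G x → ∃ i, p < G i x ∧ G i x < q

/-- CTE: there are only countably many special points. -/
def T_CTE : Prop := ∀ (ι : Type) [Countable ι] (G : ι → ℝ → ℝ), Gp rl G →
  {x | Es rl G x}.Countable

/-- FIN: orbits are discrete in good intervals. -/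
def T_FIN : Prop := ∀ (ι : Type) (G : ι → ℝ → ℝ), Gp rl G → ∀ a b,
  (∀ z, a ≤ z → z ≤ b → Ws rl G z) → ∀ c, {x | (∃ i, G i c = x) ∧ a ≤ x ∧ x ≤ b}.Finite

/-- EXI: canonical dense sets exist. -/
def T_EXI : Prop := ∀ (ι : Type) [Countable ι] (G : ι → ℝ → ℝ), Gp rl G →
  ∃ e : ℕ → ℝ, Function.Injective e ∧ Ds (range e) ∧ Iv G (range e) ∧ CR G (range e)

/-- STP: one step of the back-and-forth argument. -/
def T_STP : Prop := ∀ (ι : Type) (G : ι → ℝ → ℝ), Gp rl G → ∀ D D' : Set ℝ, Ds D' →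
  Iv G D → Iv G D' → CR G D → CR G D' → ∀ Θ, PM G D D' Θ → ∀ d ∈ D,
  ∃ Θ', Θ ⊆ Θ' ∧ PM G D D' Θ' ∧ ∃ d', (d, d') ∈ Θ'

/-- UNI: canonical sets are unique. -/
def T_UNI : Prop := ∀ (ι : Type) (G : ι → ℝ → ℝ), Gp rl G → ∀ e e' : ℕ → ℝ,
  Function.Injective e → Function.Injective e' → Ds (range e) → Ds (range e') →
  Iv G (range e) → Iv G (range e') → CR G (range e) → CR G (range e') →
  ∃ π : Equiv.Perm ℕ, (∀ m n, e m < e n ↔ e' (π m) < e' (π n)) ∧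
    ∀ i m n, G i (e m) = e n ↔ G i (e' (π m)) = e' (π n)

/-- the situation of the transfer lemmas -/
structure Tr {ι : Type} (G : ι → ℝ → ℝ) (lt : ℕ → ℕ → Prop) (g : ι → ℕ → ℕ) (e : ℕ → ℝ) :
    Prop where
  gp : Gp rl G
  em : Em lt e
  eq : ∀ i m, e (g i m) = G i (e m)

/-- TRF: the notions for the dense set and for the line agree. -/
def T_TRF : Prop := ∀ (ι : Type) (G : ι → ℝ → ℝ) (lt : ℕ → ℕ → Prop) (g : ι → ℕ → ℕ)
  (e : ℕ → ℝ), Tr G lt g e →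
  (∀ m, Ws lt g m ↔ Ws rl G (e m)) ∧ (∀ m n, Sr lt g m n ↔ Sr rl G (e m) (e n)) ∧
  (∀ i, Inc lt (g i) ↔ Inc rl (G i)) ∧ (∀ i, Dec lt (g i) ↔ Dec rl (G i)) ∧
  (∀ i m n, Lm lt (g i) m n ↔ Lm rl (G i) (e m) (e n)) ∧
  ∀ m, Es lt g m ↔ Es rl G (e m)

/-- TRC: the dense set is canonical if and only if the order with its maps is. -/
def T_TRC : Prop := ∀ (ι : Type) (G : ι → ℝ → ℝ) (lt : ℕ → ℕ → Prop) (g : ι → ℕ → ℕ)
  (e : ℕ → ℝ), Tr G lt g e → (Cn lt g ↔ CR G (range e))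

/-- EXT: isomorphisms of dense subsets extend to the line. -/
def T_EXT : Prop := ∀ e e' : ℕ → ℝ, Ds (range e) → Ds (range e') →
  ((∀ m n, e m < e n ↔ e' m < e' n) → ∃ k : ℝ ≃ₜ ℝ, StrictMono k ∧ ∀ m, k (e m) = e' m) ∧
  ((∀ m n, e m < e n ↔ e' n < e' m) → ∃ k : ℝ ≃ₜ ℝ, StrictAnti k ∧ ∀ m, k (e m) = e' m)

/-- REA: countable dense orders without end points embed densely. -/
def T_REA : Prop := ∀ y : Y, DL y → ∃ e, Em (lt y) e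

/-- HOM: the maps extend to homeomorphisms, and they are determined by the code. -/
def T_HOM : Prop := ∀ (y : Y) (e : ℕ → ℝ), DL y → Em (lt y) e → ∃ h : ℕ → ℝ ≃ₜ ℝ,
  (∀ k m, e (y.2 (2 * k) m) = h k (e m)) ∧ (∀ w m, e (wd y.2 w m) = gr h w (e m)) ∧
  ∀ a, Cd y a e ↔ a = rs h

/-- COD: every sequence of homeomorphisms has a canonical code. -/
def T_COD : Prop := ∀ h : ℕ → ℝ ≃ₜ ℝ, ∃ y e, Cy y ∧ Em (lt y) e ∧ Cd y (rs h) e

/-- CNJ: codes are isomorphic if and only if the sequences are conjugate. -/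
def T_CNJ : Prop := ∀ (y y' : Y) (e e' : ℕ → ℝ) (h h' : ℕ → ℝ ≃ₜ ℝ), Cy y → Cy y' →
  Em (lt y) e → Em (lt y') e' → Cd y (rs h) e → Cd y' (rs h') e' → (Iso y y' ↔ Cj h h')

/-- MES: the class of canonical orders is Borel. -/
def T_MES : Prop := MeasurableSet {y : Y | Cy y}

/-- MCD: the coding relation is Borel. -/
def T_MCD : Prop := MeasurableSet {p : Y × ((ℕ → ℚ → ℝ) × (ℕ → ℝ)) |
  Em (lt p.1) p.2.2 ∧ Cd p.1 p.2.1 p.2.2}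

/-- CIV: invariance of the class of canonical orders. -/
def T_CIV : Prop := ∀ y z : Y, Iso y z → Cy y → Cy z

/-- FUN: the theorem on monotone orders for sequences of monotone maps. -/
def T_FUN : Prop := ∀ X : Set Y, MeasurableSet X → (∀ y ∈ X, ∀ z, Iso y z → z ∈ X) →
  (∀ y ∈ X, Ln y ∧ ∀ k, Mt y (y.2 k)) → PerfY X ∨ CtbY X

/-- TRN: the transfer lemma for Borel codings. -/
def T_TRN : Prop := ∀ (Z V : Type) [MeasurableSpace Z] [StandardBorelSpace Z] [MeasurableSpace V]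
  (R : Set (Y × Z)) (p : Z → V) (A : Set V) (E : Z → Z → Prop),
  MeasurableSet R → Measurable p → MeasurableSet A →
  MeasurableSet {y | ∃ z, (y, z) ∈ R} →
  (∀ r ∈ R, Ln r.1 ∧ ∀ k, Mt r.1 (r.1.2 k)) →
  (∀ r ∈ R, ∀ y, Iso r.1 y → ∃ z, (y, z) ∈ R) →
  (∀ r ∈ R, ∀ r' ∈ R, Iso r.1 r'.1 ↔ E r.2 r'.2) →
  (∀ r ∈ R, ∀ r' ∈ R, E r.2 r'.2 → p r.2 ∈ A → p r'.2 ∈ A) →
  (∃ F : (ℕ → Bool) → Z, Measurable F ∧ (∀ u, (∃ y, (y, F u) ∈ R) ∧ p (F u) ∈ A) ∧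
    ∀ u v, u ≠ v → ¬ E (F u) (F v)) ∨
  ∃ D : Set Z, D.Countable ∧ (∀ z ∈ D, (∃ y, (y, z) ∈ R) ∧ p z ∈ A) ∧
    ∀ r ∈ R, p r.2 ∈ A → ∃ z ∈ D, E r.2 z

/-- LIN: the line. -/
def T_LIN : Prop := ∀ B : Set (ℕ → ℚ → ℝ), MeasurableSet B →
  (∀ h h' : ℕ → ℝ ≃ₜ ℝ, Cj h h' → rs h ∈ B → rs h' ∈ B) →
  (∃ F : (ℕ → Bool) → ℕ → ℝ ≃ₜ ℝ, Measurable (fun u => rs (F u)) ∧ (∀ u, rs (F u) ∈ B) ∧
    ∀ u v, u ≠ v → ¬ Cj (F u) (F v)) ∨
  ∃ D : Set (ℕ → ℝ ≃ₜ ℝ), D.Countable ∧ ∀ h, rs h ∈ B → ∃ h' ∈ D, Cj h h'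

/-- conjugate by an automorphism of the rational order -/
def CjQ (f f' : ℕ → ℚ → ℚ) : Prop := ∃ g : ℚ ≃o ℚ, ∀ k x, g (f k x) = f' k (g x)

/-- RAT: the rational numbers. -/
def T_RAT : Prop := ∀ B : Set (ℕ → ℚ → ℚ), MeasurableSet B →
  (∀ f ∈ B, ∀ k, Monotone (f k) ∨ Antitone (f k)) → (∀ f ∈ B, ∀ f', CjQ f f' → f' ∈ B) →
  (∃ F : (ℕ → Bool) → ℕ → ℚ → ℚ, Measurable F ∧ (∀ u, F u ∈ B) ∧
    ∀ u v, u ≠ v → ¬ CjQ (F u) (F v)) ∨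
  ∃ D : Set (ℕ → ℚ → ℚ), D.Countable ∧ ∀ f ∈ B, ∃ f' ∈ D, CjQ f f'

/-- a lift of an orientation preserving homeomorphism of the circle -/
def Lf (h : ℝ ≃ₜ ℝ) : Prop := StrictMono h ∧ ∀ x, h (x + 1) = h x + 1

/-- the sequences of homeomorphisms of the circle with these lifts are conjugate by an orientation
preserving homeomorphism of the circle -/
def Cc (h h' : ℕ → ℝ ≃ₜ ℝ) : Prop :=
  ∃ g : ℝ ≃ₜ ℝ, Lf g ∧ ∀ k, ∃ n : ℤ, ∀ x, g (h k x) = h' k (g x) + n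

/-- CIR: the circle. -/
def T_CIR : Prop := ∀ B : Set (ℕ → ℚ → ℝ), MeasurableSet B →
  (∀ h h' : ℕ → ℝ ≃ₜ ℝ, (∀ k, Lf (h k)) → (∀ k, Lf (h' k)) → Cc h h' → rs h ∈ B → rs h' ∈ B) →
  (∃ F : (ℕ → Bool) → ℕ → ℝ ≃ₜ ℝ, Measurable (fun u => rs (F u)) ∧
    (∀ u, (∀ k, Lf (F u k)) ∧ rs (F u) ∈ B) ∧ ∀ u v, u ≠ v → ¬ Cc (F u) (F v)) ∨
  ∃ D : Set (ℕ → ℝ ≃ₜ ℝ), D.Countable ∧ ∀ h, (∀ k, Lf (h k)) → rs h ∈ B → ∃ h' ∈ D, Cc h h'

/-- CRC: canonical sets are preserved by conjugation. -/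
def T_CRC : Prop := ∀ (ι : Type) (G G' : ι → ℝ → ℝ) (g : ℝ ≃ₜ ℝ), StrictMono g →
  (∀ i x, g (G i x) = G' i (g x)) → ∀ D : Set ℝ, CR G D → CR G' (g '' D)

/-- NRM: the normal lift. -/
def T_NRM : Prop := ∀ h : ℝ ≃ₜ ℝ, Lf h → ∃ m : ℤ, (∀ x, x + m ≤ h x) ∧ (∃ x, h x < x + m + 1) ∧
  ∀ m' : ℤ, (∀ x, x + m' ≤ h x) → (∃ x, h x < x + m' + 1) → m' = m

/-- TRS: an increasing homeomorphism without fixed points is conjugate to the translation. -/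
def T_TRS : Prop := ∀ φ : ℝ ≃ₜ ℝ, StrictMono φ → (∀ x, x < φ x) →
  ∃ g : ℝ ≃ₜ ℝ, StrictMono g ∧ ∀ x, g (φ x) = g x + 1

/-- the orders which code sequences of homeomorphisms of the circle: the first map codes the
translation by one, the other maps code the normal lifts -/
structure Sp (y : Y) : Prop where
  cy : Cy y
  inc : ∀ k, Inc (lt y) (y.2 (2 * k))
  com : ∀ k m, y.2 0 (y.2 (2 * k) m) = y.2 (2 * k) (y.2 0 m)
  cof : ∀ a b, ∃ n : ℕ, lt y b ((y.2 0)^[n] a)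
  nor : ∀ k m, ¬ lt y (y.2 (2 * (k + 1)) m) m
  nor' : ∀ k, ∃ m, lt y (y.2 (2 * (k + 1)) m) (y.2 0 m)

/-- the coding relation for the circle; `a` is the sequence of lifts, `n` the integers which must
be subtracted to get the normal lifts -/
def Cz (y : Y) (a : ℕ → ℚ → ℝ) (e : ℕ → ℝ) (n : ℕ → ℤ) : Prop :=
  Sp y ∧ Em (lt y) e ∧ (∀ m, e (y.2 0 m) = e m + 1) ∧
    Cd y (fun k q => match k with
      | 0 => (q : ℝ) + 1
      | k + 1 => a k q - n k) e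

/-- CZA: sequences of lifts have codes, and codes give sequences of lifts. -/
def T_CZA : Prop :=
  (∀ h : ℕ → ℝ ≃ₜ ℝ, (∀ k, Lf (h k)) → ∃ y e n, Cz y (rs h) e n) ∧
  (∀ y a e n, Cz y a e n → ∃ h : ℕ → ℝ ≃ₜ ℝ, (∀ k, Lf (h k)) ∧ a = rs h) ∧
  ∀ y, Sp y → ∃ a e n, Cz y a e n

/-- CZB: codes are isomorphic if and only if the sequences are conjugate on the circle. -/
def T_CZB : Prop := ∀ (y y' : Y) (e e' : ℕ → ℝ) (n n' : ℕ → ℤ) (h h' : ℕ → ℝ ≃ₜ ℝ),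
  (∀ k, Lf (h k)) → (∀ k, Lf (h' k)) → Cz y (rs h) e n → Cz y' (rs h') e' n' →
  (Iso y y' ↔ Cc h h')

/-- CZM: the coding relation for the circle is Borel. -/
def T_CZM : Prop := MeasurableSet {y : Y | Sp y} ∧
  MeasurableSet {p : Y × ((ℕ → ℚ → ℝ) × (ℕ → ℝ) × (ℕ → ℤ)) | Cz p.1 p.2.1 p.2.2.1 p.2.2.2}

/-- SIV: invariance. -/
def T_SIV : Prop := ∀ y z : Y, Iso y z → Sp y → Sp z

end Pool.Agent.AL
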